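import Pool.Agent.FLG.H4

/-!
# MP_89a9df_co, Q1: alternating middle face inequalities in all dimensions
-/

set_option autoImplicit false

namespace Pool.Agent.Results.MP_89a9df_co.AlternatingMiddleFaces

open Pool.Agent.FLG

/-- Let `P` be a `d`-polytope, `S ⊆ {0, ..., d-1}` and `a = h - 1 < b` consecutive in
`S ∪ {-1, d}`. Write `g v = f_{S ∪ {v}}` for `a < v < b` and `g a = g b = f_S`,
`up j = g j - g (j+1) + ... ± g b`, `down j = g j - g (j-1) + ... ± g a`. Then for
`a < i < j < b`: `g i ≤ (i - a) up (i+1) + up j` if `i + j ≤ a + b + 1`, and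
`g j ≤ (b - j) down (j-1) + down i` if `i + j ≥ a + b - 1`. -/
theorem result (n : ℕ) (P : Set (Sp n)) (hP : IsPolytope P) (S : Finset ℕ)
    (hS : ∀ i ∈ S, i < dim P) (h b : ℕ) (hab : Consec (dim P) S (h - 1) b) (i j : ℕ)
    (hi : h ≤ i) (hij : i < j) (hj : j < b) :
    (i + j ≤ h + b → (flag P (insert i S) : ℤ) ≤
      ((i : ℤ) + 1 - h) * up P S b (i + 1) + up P S b j) ∧
    (h + b ≤ i + j + 2 → (flag P (insert j S) : ℤ) ≤
      ((b : ℤ) - j) * down P S h (j - 1) + down P S h i) :=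
  alt_flag hP hS hab hi hij hj

end Pool.Agent.Results.MP_89a9df_co.AlternatingMiddleFaces
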