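import Pool.Agent.FLG.H2

/-!
# MP_89a9df_co, Q1: sharper linear inequalities in dimension 5 (and for intervals of length 6)
-/

set_option autoImplicit false

namespace Pool.Agent.Results.MP_89a9df_co.FiveDimensionalInequalities

open Pool.Agent.FLG

/-- Let `P` be a `d`-polytope, `S ⊆ {0, ..., d-1}` and `h - 1 < h + 5` consecutive in
`S ∪ {-1, d}` (for example `d = 5`, `S = ∅`, `h = 0`). Then
`f_{S ∪ (h+2)} + 7 f_{S ∪ (h+4)} ≤ 4 f_{S ∪ (h+3)} + 4 f_S`,
`f_{S ∪ (h+2)} + 8 f_{S ∪ (h+4)} + 4 f_S ≤ 4 f_{S ∪ (h+3)} + 2 f_{S ∪ h}` and the two dual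
inequalities. -/
theorem result (n : ℕ) (P : Set (Sp n)) (hP : IsPolytope P) (S : Finset ℕ)
    (hS : ∀ i ∈ S, i < dim P) (h : ℕ) (hab : Consec (dim P) S (h - 1) (h + 5)) :
    flag P (insert (h + 2) S) + 7 * flag P (insert (h + 4) S) ≤
      4 * flag P (insert (h + 3) S) + 4 * flag P S ∧
    flag P (insert (h + 2) S) + 8 * flag P (insert (h + 4) S) + 4 * flag P S ≤
      4 * flag P (insert (h + 3) S) + 2 * flag P (insert h S) ∧
    flag P (insert (h + 2) S) + 7 * flag P (insert h S) ≤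
      4 * flag P (insert (h + 1) S) + 4 * flag P S ∧
    flag P (insert (h + 2) S) + 8 * flag P (insert h S) + 4 * flag P S ≤
      4 * flag P (insert (h + 1) S) + 2 * flag P (insert (h + 4) S) := by
  have a1 := six t_FAB.1 hP hS hab
  have a2 := six t_FAB.2 hP hS hab
  have a3 := six (t_FDUAL t_CONE t_SPAN t_DUAL 6 _ _ (by norm_num) t_FAB.1) hP hS hab
  have a4 := six (t_FDUAL t_CONE t_SPAN t_DUAL 6 _ _ (by norm_num) t_FAB.2) hP hS hab
  norm_num at a1 a2 a3 a4
  refine ⟨?_, ?_, ?_, ?_⟩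
  · omega
  · omega
  · omega
  · omega

end Pool.Agent.Results.MP_89a9df_co.FiveDimensionalInequalities
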