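import Mathlib
import Pool.Agent.Lib_helper33.ZN.Defs
import Pool.Agent.Lib_helper33.ZN.Final

/-!
# No finite complete set of linear inequalities for the flag f-vectors of `d`-zonotopes, `d ≥ 4`

For `d = k + 3` put `V = f_{d-1} / 2`, `X = f_{d-3,d-2} / 4 - (d-1)(d-2) V` and
`Y = f_{d-3} / 2 - C(d-1, 2) V`.  All `d`-zonotopes satisfy `X ≥ 0` and, for every natural
number `K`, `K Y ≤ C(d-1, 2) V + c_K X + C_K`, with constants `c_K`, `C_K`.  The zonotopes in
general position satisfy `X = 0`, and `Y` is unbounded on them.  If finitely many inequalities were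
complete, then there would be a direction of recession with `X = 0` and `Y > 0`, contradicting the
inequalities above for large `K`.
-/

set_option autoImplicit false

namespace Pool.Agent.Results.MP_89a9df_co.NoFiniteCompleteSet

open Pool.Agent.Lib_helper33.ZN

theorem result (d : ℕ) (hd : 4 ≤ d) (T : Set ((Finset (Fin d) → ℝ) × ℝ)) (hT : T.Finite) :
    ¬ IsCompleteFor (zonotopeFlagVectors d) T :=
  no_finite_complete hd T hT

end Pool.Agent.Results.MP_89a9df_co.NoFiniteCompleteSet
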