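import Pool.Agent.FLG.H3

/-!
# MP_89a9df_co, Q1: initial monotonicity in dimension at least 6, unimodality in dimension 6
-/

set_option autoImplicit false

namespace Pool.Agent.Results.MP_89a9df_co.UnimodalSixPolytopes

open Pool.Agent.FLG

/-- Let `P` be a `d`-polytope, `S ⊆ {0, ..., d-1}` and `h - 1 < b` consecutive in
`S ∪ {-1, d}`, `b ≥ h + 6` (for example `d ≥ 6`, `S = ∅`, `h = 0`, `b = d`), and write
`g j = f_{S ∪ {j}}`. Then `g (h+1) + f_S ≤ g (h+2)` and `g (b-2) + f_S ≤ g (b-3)`. If `b = h + 6`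
(for example `d = 6`) then moreover `3 (g (h+2) - g (h+1)) ≥ g (h+4) - g (h+5) + 28 f_S` and
`3 (g (h+3) - g (h+4)) ≥ g (h+1) - g h + 28 f_S`, and
`g h ≤ g (h+1)`, `g (h+1) + 14 f_S ≤ g (h+2)`, `g (h+3) ≥ g (h+4) + 14 f_S`, `g (h+4) ≥ g (h+5)`; so
`g h, ..., g (h+5)` is unimodal. -/
theorem result (n : ℕ) (P : Set (Sp n)) (hP : IsPolytope P) (S : Finset ℕ)
    (hS : ∀ i ∈ S, i < dim P) (h b : ℕ) (hab : Consec (dim P) S (h - 1) b) (hb : h + 6 ≤ b) :
    flag P (insert (h + 1) S) + flag P S ≤ flag P (insert (h + 2) S) ∧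
    flag P (insert (b - 2) S) + flag P S ≤ flag P (insert (b - 3) S) ∧
    (b = h + 6 →
      flag P (insert (h + 4) S) + 28 * flag P S + 3 * flag P (insert (h + 1) S) ≤
        flag P (insert (h + 5) S) + 3 * flag P (insert (h + 2) S) ∧
      flag P (insert (h + 1) S) + 28 * flag P S + 3 * flag P (insert (h + 4) S) ≤
        flag P (insert h S) + 3 * flag P (insert (h + 3) S) ∧
      flag P (insert h S) ≤ flag P (insert (h + 1) S) ∧
      flag P (insert (h + 1) S) + 14 * flag P S ≤ flag P (insert (h + 2) S) ∧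
      flag P (insert (h + 4) S) + 14 * flag P S ≤ flag P (insert (h + 3) S) ∧
      flag P (insert (h + 5) S) ≤ flag P (insert (h + 4) S)) := by
  obtain ⟨h1, h2⟩ := mono_flag hP hS hab hb
  refine ⟨h1, h2, fun he => ?_⟩
  have hab' : Consec (dim P) S (h - 1) (h + 6) := by
    rw [he] at hab
    exact_mod_cast hab
  obtain ⟨a1, a2, a3, a4, a5, a6⟩ := fam_seven
  have b1 := seven a1 hP hS hab'
  have b2 := seven a2 hP hS hab'
  have b3 := seven a3 hP hS hab'
  have b4 := seven a4 hP hS hab'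
  have b5 := seven a5 hP hS hab'
  have b6 := seven a6 hP hS hab'
  norm_num at b1 b2 b3 b4 b5 b6
  refine ⟨?_, ?_, ?_, ?_, ?_, ?_⟩ <;> omega

end Pool.Agent.Results.MP_89a9df_co.UnimodalSixPolytopes
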